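import Pool.Agent.T9h54.CI.Count

/-!
# Few short intervals of classes without many classes with small primes
-/

set_option autoImplicit false

namespace T9h54.CI

open Finset Filter Topology Pool.Agent.Q240.KS
open Pool.Agent.H646 (rat)
open scoped Classical

/-- the class `a` modulo `m` is reduced and contains a prime `≤ C φ(m) log m` -/
def SP (C : ℝ) (m a : ℕ) : Prop := a.Coprime m ∧
  ∃ p : ℕ, p.Prime ∧ p ≡ a [MOD m] ∧ (p : ℝ) ≤ C * m.totient * Real.log m

/-- a proportion `c` of the reduced classes in `(u, u + H]` have a prime `≤ C φ(m) log m` -/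
def Good (c C : ℝ) (m u H : ℕ) : Prop :=
  c * ((m.totient : ℝ) / m) * H ≤ (((Ioc u (u + H)).filter (SP C m)).card : ℝ)

theorem sep {m H k k' u u' : ℕ} (hu' : u' + H ≤ m) (hlt : u + H ≤ u') :
    (H : ℝ) ≤ |((m * k + u : ℕ) : ℝ) - ((m * k' + u' : ℕ) : ℝ)| := by
  rcases le_or_gt k k' with h | h
  · have h1 : m * k ≤ m * k' := Nat.mul_le_mul_left m h
    have h2 : m * k + u + H ≤ m * k' + u' := by omega
    have h3 : ((m * k + u : ℕ) : ℝ) + H ≤ ((m * k' + u' : ℕ) : ℝ) := by exact_mod_cast h2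
    rw [abs_sub_comm]
    exact le_trans (by linarith) (le_abs_self _)
  · have h1 : m * (k' + 1) ≤ m * k := Nat.mul_le_mul_left m h
    have h2 : m * k' + u' + H ≤ m * k + u := by
      rw [Nat.mul_add] at h1
      omega
    have h3 : ((m * k' + u' : ℕ) : ℝ) + H ≤ ((m * k + u : ℕ) : ℝ) := by exact_mod_cast h2
    exact le_trans (by linarith) (le_abs_self _)

lemma ev_loglog (δ : ℝ) (hδ : 0 < δ) : ∀ᶠ x : ℝ in atTop, Real.log (4 * x) + 7 / 20 ≤ δ * x := by
  have h1 := (Real.isLittleO_log_id_atTop).def (show 0 < δ / 2 by positivity)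
  filter_upwards [h1, eventually_ge_atTop 1, eventually_ge_atTop (4 / δ)] with x h1 h2 h3
  simp only [id, Real.norm_eq_abs] at h1
  rw [abs_of_nonneg (Real.log_nonneg h2), abs_of_nonneg (by linarith)] at h1
  have h4 : Real.log (4 * x) = Real.log 4 + Real.log x := Real.log_mul (by norm_num) (by linarith)
  have h5 : Real.log 4 ≤ 3 / 2 := by
    have e : (4 : ℝ) = 2 ^ 2 := by norm_num
    rw [e, Real.log_pow]
    have := Real.log_two_lt_d9
    push_cast
    linarith
  have h6 : 4 ≤ δ * x := by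
    rw [div_le_iff₀ hδ] at h3
    linarith
  rw [h4]
  linarith

theorem bad_count {lam0 e0 : ℝ} (h0 : 0 ≤ lam0) (hl : lam0 ≤ 13 / 16) (he : 0 ≤ e0)
    (hM : MAINP lam0 e0) :
    ∃ c C η : ℝ, 0 < c ∧ 0 < C ∧ 0 < η ∧ ∃ m0 : ℕ, ∀ m : ℕ, m0 ≤ m → ∀ H : ℕ,
      (m : ℝ) ^ (1 - lam0 - η) ≤ H → (H : ℝ) ≤ (m : ℝ) ^ (9 / 10 : ℝ) → ∀ U : Finset ℕ,
      (∀ u ∈ U, u + H ≤ m ∧ ¬ Good c C m u H) → (∀ u ∈ U, ∀ u' ∈ U, u < u' → u + H ≤ u') →
      (U.card : ℝ) ≤ (m : ℝ) ^ (e0 - η) := by
  classical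
  obtain ⟨c₁, η₁, Y₀, hc₁, hη₁, hM⟩ := hM
  obtain ⟨C₂, hC₂, H₀, hH₀2, hsec⟩ := second
  set η : ℝ := min (η₁ / 2) (1 / 20) with hη
  have hη0 : 0 < η := lt_min (by positivity) (by norm_num)
  have hηa : η ≤ η₁ / 2 := min_le_left _ _
  have hηb : η ≤ 1 / 20 := min_le_right _ _
  set D : ℝ := 4 * (c₁ / 2 + 400 * C₂) with hD
  have hD0 : 0 < D := by positivity
  set δ : ℝ := min (η₁ / 2 / (e0 + 1)) 1 with hδ
  have hδ0 : 0 < δ := lt_min (by positivity) one_pos
  have hδ1 : δ ≤ 1 := min_le_right _ _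
  have hδ2 : δ * (e0 + 1) ≤ η₁ / 2 := by
    have : δ ≤ η₁ / 2 / (e0 + 1) := min_le_left _ _
    rwa [le_div_iff₀ (by linarith)] at this
  have hlogt : Tendsto (fun m : ℕ => Real.log m) atTop atTop :=
    Real.tendsto_log_atTop.comp tendsto_natCast_atTop_atTop
  have hev := ((hlogt.eventually (ev_loglog δ hδ0)).and
    ((hlogt.eventually_ge_atTop 1).and (hlogt.eventually_ge_atTop Y₀))).and
    (((tendsto_rpow_atTop (show (0 : ℝ) < 1 / 8 by norm_num)).comp
      tendsto_natCast_atTop_atTop).eventually_ge_atTop (H₀ : ℝ))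
  obtain ⟨m0, hm0⟩ := eventually_atTop.1 hev
  refine ⟨c₁ ^ 2 / D, 8, η, by positivity, by norm_num, hη0, max m0 3, ?_⟩
  intro m hm H hH1 hH2 U hU hsepU
  obtain ⟨⟨k1, k2, k3⟩, k4⟩ := hm0 m ((le_max_left _ _).trans hm)
  have hm3 : 3 ≤ m := (le_max_right _ _).trans hm
  have hm1 : 1 ≤ m := by omega
  have hmr : (3 : ℝ) ≤ m := by exact_mod_cast hm3
  have hmpos : (0 : ℝ) < m := by linarith
  have hm1r : (1 : ℝ) ≤ m := by linarith
  set L : ℝ := Real.log m with hL
  have hLpos : 0 < L := by linarith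
  have hrat1 : 1 ≤ rat m := Pool.Agent.H646.TuplesM.rat_ge_one hm1
  have hratpos : 0 < rat m := by linarith
  have hrat2 : rat m ≤ 3 * L := by
    have h1 := Pool.Agent.H262R2.UK.rat_le_log m hm1
    have h2 := Real.log_two_gt_d9
    have h3 : Real.log m / Real.log 2 ≤ L / 0.6931471803 := by
      gcongr
    have h4 : L / 0.6931471803 ≤ 2 * L := by
      rw [div_le_iff₀ (by norm_num)]
      linarith
    linarith
  set K : ℕ := ⌈L / rat m⌉₊ with hK
  have hK1 : L / rat m ≤ K := Nat.le_ceil _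
  have hK0 : 0 < K := Nat.ceil_pos.2 (by positivity)
  have hK2 : (K : ℝ) ≤ 4 * L / rat m := by
    have h1 := Nat.ceil_lt_add_one (a := L / rat m) (by positivity)
    rw [← hK] at h1
    have h2 : 1 ≤ 3 * L / rat m := by rwa [le_div_iff₀ hratpos, one_mul]
    have h3 : 4 * L / rat m = L / rat m + 3 * L / rat m := by ring
    linarith
  have hKr : (1 : ℝ) ≤ K := by exact_mod_cast hK0
  have hKpos : (0 : ℝ) < K := by linarith
  have hK3 : (K : ℝ) ≤ 4 * L := by
    refine hK2.trans ?_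
    exact div_le_self (by positivity) hrat1
  set Y : ℝ := L + Real.log K + 7 / 20 with hY
  have hlogK : 0 ≤ Real.log K := Real.log_nonneg hKr
  have hYL : L ≤ Y := by linarith
  have hYL2 : Y - L ≤ δ * L := by
    have : Real.log K ≤ Real.log (4 * L) := Real.log_le_log hKpos hK3
    linarith
  have hY2 : Y ≤ 2 * L := by nlinarith
  have hYpos : 0 < Y := by linarith
  -- the length
  have hHexp : (m : ℝ) ^ (1 - lam0 - η) = Real.exp ((1 - lam0 - η) * L) := by
    rw [Real.rpow_def_of_pos hmpos, mul_comm]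
  have hH3 : (m : ℝ) ^ (1 / 8 : ℝ) ≤ H := by
    refine le_trans ?_ hH1
    apply Real.rpow_le_rpow_of_exponent_le hm1r
    linarith
  have hH4 : H₀ ≤ H := by
    have : (H₀ : ℝ) ≤ H := le_trans k4 hH3
    exact_mod_cast this
  have hH2' : 2 ≤ H := hH₀2.trans hH4
  have hHpos : (0 : ℝ) < H := by
    have : 0 < H := by omega
    exact_mod_cast this
  have hlogH : L / 10 ≤ Real.log H := by
    have h1 := Real.log_le_log (by positivity) hH3
    rw [Real.log_rpow hmpos] at h1
    linarith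
  have hlogHpos : 0 < Real.log H := by linarith [show 0 < L / 10 by positivity]
  -- without poor intervals there are many classes
  have key : ∀ u : ℕ, u + H ≤ m →
      (∀ k ∈ Ico K (2 * K), c₁ * H / Y ≤ (pic ((m * k + u : ℕ) : ℝ) (H : ℝ) : ℝ)) →
      Good (c₁ ^ 2 / D) 8 m u H := by
    intro u hu hk
    set s0 : ℝ := c₁ * K * H / (2 * L) with hs0
    set P : ℝ := 100 * C₂ * rat m * K ^ 2 * H / L ^ 2 with hP
    have h1 : s0 ≤ ∑ a ∈ Ioc u (u + H), (rr m K a : ℝ) := by
      rw [first_eq]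
      have h2 : ((Ico K (2 * K)).card : ℝ) * (c₁ * H / Y) ≤
          ∑ k ∈ Ico K (2 * K), (pic ((m * k + u : ℕ) : ℝ) (H : ℝ) : ℝ) := by
        rw [← nsmul_eq_mul]
        exact Finset.card_nsmul_le_sum _ _ _ hk
      have h3 : ((Ico K (2 * K)).card : ℝ) = K := by
        rw [Nat.card_Ico]; congr 1; omega
      rw [h3] at h2
      refine le_trans ?_ h2
      have h4 : c₁ * H / (2 * L) ≤ c₁ * H / Y := by
        gcongr
      calc s0 = K * (c₁ * H / (2 * L)) := by rw [hs0]; ring
        _ ≤ K * (c₁ * H / Y) := by gcongr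
    have h2 : ∑ a ∈ Ioc u (u + H), (rr m K a : ℝ) ^ 2 ≤ ∑ a ∈ Ioc u (u + H), (rr m K a : ℝ) + P := by
      refine (hsec m u H K hm1 hH4).trans ?_
      have h3 : C₂ * rat m * K ^ 2 * H / Real.log H ^ 2 ≤ C₂ * rat m * K ^ 2 * H / (L / 10) ^ 2 := by
        gcongr
      have h4 : C₂ * rat m * K ^ 2 * H / (L / 10) ^ 2 = P := by
        rw [hP]; field_simp; ring
      linarith
    have hs00 : 0 < s0 := by positivity
    have hP0 : 0 ≤ P := by positivity
    have h3 := cs hs00 hP0 h1 h2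
    have h4 : c₁ ^ 2 / D * ((m.totient : ℝ) / m) * H ≤ s0 ^ 2 / (s0 + P) := by
      have e1 : (m.totient : ℝ) / m = 1 / rat m := by
        unfold Pool.Agent.H646.rat
        rw [one_div_div]
      have e2 : s0 + P ≤ K * H / L * (c₁ / 2 + 400 * C₂) := by
        have e3 : rat m * K ≤ 4 * L := by
          rw [le_div_iff₀ hratpos] at hK2
          linarith
        have e4 : P = K * H / L * (100 * C₂ * (rat m * K) / L) := by
          rw [hP]; field_simp
        have e5 : 100 * C₂ * (rat m * K) / L ≤ 400 * C₂ := by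
          rw [div_le_iff₀ hLpos]
          nlinarith
        have e6 : s0 = K * H / L * (c₁ / 2) := by
          rw [hs0]; field_simp
        rw [e4, e6, mul_add]
        gcongr
      have e7 : 0 < K * H / L * (c₁ / 2 + 400 * C₂) := by positivity
      have e8 : s0 ^ 2 / (K * H / L * (c₁ / 2 + 400 * C₂)) ≤ s0 ^ 2 / (s0 + P) := by
        gcongr
      refine le_trans ?_ e8
      have e9 : s0 ^ 2 / (K * H / L * (c₁ / 2 + 400 * C₂)) = c₁ ^ 2 / D * (K / L) * H := by
        rw [hs0, hD]; field_simp; ring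
      rw [e9, e1]
      have e10 : 1 / rat m ≤ K / L := by
        rw [div_le_div_iff₀ hratpos hLpos]
        rw [div_le_iff₀ hratpos] at hK1
        linarith
      gcongr
    unfold Good
    refine (h4.trans h3).trans ?_
    have h5 : (Ioc u (u + H)).filter (fun a => (rr m K a : ℝ) ≠ 0) ⊆
        (Ioc u (u + H)).filter (SP 8 m) := by
      intro a ha
      rw [mem_filter, mem_Ioc] at ha
      obtain ⟨⟨ha1, ha2⟩, ha3⟩ := ha
      have ha4 : rr m K a ≠ 0 := by exact_mod_cast ha3
      unfold rr at ha4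
      rw [Finset.card_ne_zero] at ha4
      obtain ⟨k, hk'⟩ := ha4
      rw [mem_filter, mem_Ico] at hk'
      obtain ⟨⟨hk1, hk2⟩, hk3⟩ := hk'
      rw [mem_filter, mem_Ioc]
      have hmk : m ≤ m * k := Nat.le_mul_of_pos_right m (by omega)
      refine ⟨⟨ha1, ha2⟩, ?_, m * k + a, hk3, ?_, ?_⟩
      · -- coprimality
        have g1 : a.gcd m ∣ m * k + a :=
          dvd_add ((Nat.gcd_dvd_right a m).mul_right k) (Nat.gcd_dvd_left a m)
        rcases (Nat.dvd_prime hk3).1 g1 with g2 | g2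
        · exact g2
        · exfalso
          have g3 : a.gcd m ≤ m := Nat.le_of_dvd (by omega) (Nat.gcd_dvd_right a m)
          omega
      · have : m * k + a ≡ 0 + a [MOD m] := Nat.ModEq.add_right a ((Nat.modEq_zero_iff_dvd).2 (dvd_mul_right m k))
        rwa [zero_add] at this
      · have g1 : m * k + a ≤ m * (2 * K) := by
          have g2 : m * (k + 1) ≤ m * (2 * K) := Nat.mul_le_mul_left m hk2
          rw [Nat.mul_add] at g2
          omega
        have g3 : ((m * k + a : ℕ) : ℝ) ≤ ((m * (2 * K) : ℕ) : ℝ) := by exact_mod_cast g1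
        refine g3.trans ?_
        push_cast
        have g4 : (m : ℝ) * (4 * L / rat m) = 4 * m.totient * L := by
          unfold Pool.Agent.H646.rat
          have htot : (0 : ℝ) < m.totient := by exact_mod_cast Nat.totient_pos.2 (by omega : 0 < m)
          field_simp
        calc (m : ℝ) * (2 * K) = 2 * (m * K) := by ring
          _ ≤ 2 * (m * (4 * L / rat m)) := by gcongr
          _ = 8 * m.totient * L := by rw [g4]; ring
    exact_mod_cast Finset.card_le_card h5
  -- each bad interval gives a poor interval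
  have hpoor : ∀ u ∈ U, ∃ k ∈ Ico K (2 * K), (pic ((m * k + u : ℕ) : ℝ) (H : ℝ) : ℝ) < c₁ * H / Y := by
    intro u hu
    by_contra hcon
    push Not at hcon
    exact (hU u hu).2 (key u (hU u hu).1 hcon)
  choose! k hkI hkp using hpoor
  set f : ℕ → ℝ := fun u => ((m * k u + u : ℕ) : ℝ) with hf
  have hfsep : ∀ u ∈ U, ∀ u' ∈ U, u ≠ u' → (H : ℝ) ≤ |f u - f u'| := by
    intro u hu u' hu' hne
    rcases lt_or_gt_of_ne hne with h | h
    · exact sep (hU u' hu').1 (hsepU u hu u' hu' h)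
    · rw [abs_sub_comm]
      exact sep (hU u hu).1 (hsepU u' hu' u hu h)
  have hinj : Set.InjOn f U := by
    intro u hu u' hu' heq
    by_contra hne
    have := hfsep u hu u' hu' hne
    rw [heq, sub_self, abs_zero] at this
    linarith
  have hfin := hM Y (by linarith) H ?_ ?_ (U.image f) ?_ ?_
  · rw [Finset.card_image_of_injOn hinj] at hfin
    refine hfin.trans ?_
    rw [Real.rpow_def_of_pos hmpos]
    apply Real.exp_le_exp.2
    have e1 : (e0 - η₁) * Y = (e0 - η₁) * L + (e0 - η₁) * (Y - L) := by ring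
    have e2 : (e0 - η₁) * (Y - L) ≤ e0 * (δ * L) := by
      calc (e0 - η₁) * (Y - L) ≤ e0 * (Y - L) := by
            apply mul_le_mul_of_nonneg_right _ (by linarith); linarith
        _ ≤ _ := by gcongr
    have e3 : e0 * (δ * L) ≤ η₁ / 2 * L := by
      have : e0 * δ ≤ η₁ / 2 := by nlinarith
      nlinarith
    have e4 : (e0 - η₁) * L + η₁ / 2 * L ≤ L * (e0 - η) := by nlinarith
    linarith
  · have e1 : (1 - lam0 - η₁) * Y = (1 - lam0 - η₁) * L + (1 - lam0 - η₁) * (Y - L) := by ring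
    have e2 : (1 - lam0 - η₁) * (Y - L) ≤ η₁ / 2 * L := by
      have h1 : (1 - lam0 - η₁) * (Y - L) ≤ 1 * (Y - L) := by
        apply mul_le_mul_of_nonneg_right _ (by linarith); linarith
      have h2 : δ ≤ η₁ / 2 := by nlinarith
      nlinarith
    refine le_trans ?_ (hHexp ▸ hH1)
    apply Real.exp_le_exp.2
    nlinarith
  · refine hH2.trans ?_
    rw [Real.rpow_def_of_pos hmpos]
    apply Real.exp_le_exp.2
    norm_num
    linarith
  · intro y hy
    obtain ⟨u, hu, rfl⟩ := mem_image.1 hy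
    have hk1 := hkI u hu
    rw [mem_Ico] at hk1
    have hum := (hU u hu).1
    have g1 : m * K ≤ m * k u + u := by
      have := Nat.mul_le_mul_left m hk1.1
      omega
    have g2 : m * k u + u ≤ 2 * (m * K) := by
      have g3 : m * (k u + 1) ≤ m * (2 * K) := Nat.mul_le_mul_left m hk1.2
      have g4 : m * (2 * K) = 2 * (m * K) := by ring
      rw [Nat.mul_add] at g3
      omega
    have g1r : (m : ℝ) * K ≤ f u := by
      simp only [hf]; exact_mod_cast g1
    have g2r : f u ≤ 2 * ((m : ℝ) * K) := by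
      simp only [hf]; exact_mod_cast g2
    have hmK : 0 < (m : ℝ) * K := by positivity
    have l1 := Real.log_le_log hmK g1r
    have l2 := Real.log_le_log (by linarith) g2r
    rw [Real.log_mul (by norm_num) hmK.ne', Real.log_mul hmpos.ne' hKpos.ne'] at l2
    rw [Real.log_mul hmpos.ne' hKpos.ne'] at l1
    refine ⟨by linarith, ?_, hkp u hu⟩
    have := Real.log_two_lt_d9
    rw [abs_le]
    constructor <;> linarith
  · intro y hy y' hy' hne
    obtain ⟨u, hu, rfl⟩ := mem_image.1 hy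
    obtain ⟨u', hu', rfl⟩ := mem_image.1 hy'
    exact hfsep u hu u' hu' (fun h => hne (by rw [h]))

end T9h54.CI
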