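import Pool.Agent.Q240.KS.Stm2
import Pool.Agent.H262R2.UK.Pair
import Pool.Agent.H262R2.UK.Basic
import Pool.Agent.H646.Moment

/-!
# Classes with small primes in short intervals of classes, from primes in most of the short intervals
-/

set_option autoImplicit false

namespace T9h54.CI

open Finset Pool.Agent.Q240.KS
open Pool.Agent.H646 (rat)

/-- the number of `k ∈ [K, 2K)` such that `m k + a` is prime -/
def rr (m K a : ℕ) : ℕ := ((Ico K (2 * K)).filter (fun k => (m * k + a).Prime)).card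

lemma sum_rat_gt (K k : ℕ) (_hk : k ∈ Ico K (2 * K)) :
    ∑ k' ∈ (Ico K (2 * K)).filter (fun k' => k < k'), rat (k' - k) ≤ ∑ l ∈ Icc 1 K, rat l := by
  have hinj : Set.InjOn (fun k' => k' - k) ((Ico K (2 * K)).filter (fun k' => k < k') : Finset ℕ) := by
    intro a ha b hb hab
    simp only [coe_filter, mem_Ico, Set.mem_setOf_eq] at ha hb hab
    omega
  rw [← Finset.sum_image (f := rat) (g := fun k' => k' - k) hinj]
  refine Finset.sum_le_sum_of_subset_of_nonneg ?_ fun i _ _ => Pool.Agent.H646.TuplesM.rat_nonneg i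
  intro l hl
  rw [mem_image] at hl
  obtain ⟨k', hk', rfl⟩ := hl
  rw [mem_filter, mem_Ico] at hk'
  rw [mem_Ico] at _hk
  rw [mem_Icc]
  omega

lemma sum_rat_lt (K k : ℕ) (_hk : k ∈ Ico K (2 * K)) :
    ∑ k' ∈ (Ico K (2 * K)).filter (fun k' => k' < k), rat (k - k') ≤ ∑ l ∈ Icc 1 K, rat l := by
  have hinj : Set.InjOn (fun k' => k - k') ((Ico K (2 * K)).filter (fun k' => k' < k) : Finset ℕ) := by
    intro a ha b hb hab
    simp only [coe_filter, mem_Ico, Set.mem_setOf_eq] at ha hb hab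
    omega
  rw [← Finset.sum_image (f := rat) (g := fun k' => k - k') hinj]
  refine Finset.sum_le_sum_of_subset_of_nonneg ?_ fun i _ _ => Pool.Agent.H646.TuplesM.rat_nonneg i
  intro l hl
  rw [mem_image] at hl
  obtain ⟨k', hk', rfl⟩ := hl
  rw [mem_filter, mem_Ico] at hk'
  rw [mem_Ico] at _hk
  rw [mem_Icc]
  omega

/-- the second moment -/
theorem second : ∃ C : ℝ, 0 < C ∧ ∃ H0 : ℕ, 2 ≤ H0 ∧ ∀ m u H K : ℕ, 1 ≤ m → H0 ≤ H →
    ∑ a ∈ Ioc u (u + H), (rr m K a : ℝ) ^ 2 ≤ ∑ a ∈ Ioc u (u + H), (rr m K a : ℝ) +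
      C * rat m * K ^ 2 * H / Real.log H ^ 2 := by
  classical
  obtain ⟨C, hC, x₀, hp⟩ := Pool.Agent.H262R2.UK.pair_bound
  obtain ⟨C₁, hC₁, hr⟩ := Pool.Agent.H646.MomentM.rat_moment 1
  simp only [pow_one] at hr
  refine ⟨2 * C * C₁, by positivity, max x₀ 2, le_max_right _ _, ?_⟩
  intro m u H K hm hH
  have hH0 : x₀ ≤ H := (le_max_left _ _).trans hH
  have hH2 : 2 ≤ H := (le_max_right _ _).trans hH
  set I := Ico K (2 * K) with hI
  set J := Ioc u (u + H) with hJ
  set P : ℕ → ℕ → Prop := fun k a => (m * k + a).Prime with hP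
  have hratm : 0 ≤ rat m := Pool.Agent.H646.TuplesM.rat_nonneg m
  have hlog : 0 < Real.log H := Real.log_pos (by exact_mod_cast hH2)
  -- expansion of the square
  have h1 : ∀ a, (rr m K a : ℝ) = ∑ k ∈ I, if P k a then (1 : ℝ) else 0 := by
    intro a
    rw [Finset.sum_boole]
    rfl
  have h2 : ∑ a ∈ J, (rr m K a : ℝ) ^ 2 =
      ∑ k ∈ I, ∑ k' ∈ I, ∑ a ∈ J, (if P k a then (1 : ℝ) else 0) * (if P k' a then 1 else 0) := by
    calc ∑ a ∈ J, (rr m K a : ℝ) ^ 2 = ∑ a ∈ J, ∑ k ∈ I, ∑ k' ∈ I,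
          (if P k a then (1 : ℝ) else 0) * (if P k' a then 1 else 0) := by
          refine Finset.sum_congr rfl fun a _ => ?_
          rw [h1, sq, Finset.sum_mul_sum]
      _ = ∑ k ∈ I, ∑ a ∈ J, ∑ k' ∈ I,
          (if P k a then (1 : ℝ) else 0) * (if P k' a then 1 else 0) := Finset.sum_comm
      _ = _ := by
          refine Finset.sum_congr rfl fun k _ => ?_
          rw [Finset.sum_comm]
  -- one pair
  have h3 : ∀ k k' : ℕ, k < k' → ∑ a ∈ J, (if P k a then (1 : ℝ) else 0) * (if P k' a then 1 else 0) ≤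
      C * H / Real.log H ^ 2 * (rat m * rat (k' - k)) := by
    intro k k' hkk
    have e1 : ∑ a ∈ J, (if P k a then (1 : ℝ) else 0) * (if P k' a then 1 else 0) =
        ((J.filter (fun a => P k a ∧ P k' a)).card : ℝ) := by
      rw [← Finset.sum_boole]
      refine Finset.sum_congr rfl fun a _ => ?_
      by_cases q1 : P k a <;> by_cases q2 : P k' a <;> simp [q1, q2]
    have hlt : m * k + u < m * k' + u := by
      have : m * k < m * k' := Nat.mul_lt_mul_of_pos_left hkk (by omega)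
      omega
    have e2 := hp H hH0 (m * k + u) (m * k' + u) hlt
    have e3 : (J.filter (fun a => P k a ∧ P k' a)).card ≤
        #{n ∈ Icc 1 H | (n + (m * k + u)).Prime ∧ (n + (m * k' + u)).Prime} := by
      refine Finset.card_le_card_of_injOn (fun a => a - u) ?_ ?_
      · intro a ha
        rw [Finset.mem_coe, mem_filter, hJ, mem_Ioc] at ha
        obtain ⟨⟨ha1, ha2⟩, ha3, ha4⟩ := ha
        rw [Finset.mem_coe, mem_filter, mem_Icc]
        dsimp only
        refine ⟨by omega, ?_, ?_⟩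
        · have : a - u + (m * k + u) = m * k + a := by omega
          rw [this]; exact ha3
        · have : a - u + (m * k' + u) = m * k' + a := by omega
          rw [this]; exact ha4
      · intro a ha b hb hab
        rw [Finset.mem_coe, mem_filter, hJ, mem_Ioc] at ha hb
        dsimp only at hab
        omega
    have e4 : m * k' + u - (m * k + u) = m * (k' - k) := by
      rw [Nat.mul_sub]; omega
    rw [e4] at e2
    have e5 : rat (m * (k' - k)) ≤ rat m * rat (k' - k) :=
      Pool.Agent.H262R2.UK.rat_mul_le hm (by omega)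
    rw [e1]
    calc ((J.filter (fun a => P k a ∧ P k' a)).card : ℝ) ≤
          (#{n ∈ Icc 1 H | (n + (m * k + u)).Prime ∧ (n + (m * k' + u)).Prime} : ℝ) := by
          exact_mod_cast e3
      _ ≤ C * H / Real.log H ^ 2 * rat (m * (k' - k)) := e2
      _ ≤ _ := by gcongr
  -- all the pairs with a given first element
  have h4 : ∀ k ∈ I, ∑ k' ∈ I, ∑ a ∈ J, (if P k a then (1 : ℝ) else 0) * (if P k' a then 1 else 0) ≤
      ∑ a ∈ J, (if P k a then (1 : ℝ) else 0) + C * H / Real.log H ^ 2 * (rat m * (2 * (C₁ * K))) := by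
    intro k hk
    have e0 : I = insert k (I.filter (fun k' => k < k') ∪ I.filter (fun k' => k' < k)) := by
      ext x
      rw [mem_insert, mem_union, mem_filter, mem_filter]
      constructor
      · intro hx
        rcases lt_trichotomy x k with h | h | h
        · exact Or.inr (Or.inr ⟨hx, h⟩)
        · exact Or.inl h
        · exact Or.inr (Or.inl ⟨hx, h⟩)
      · rintro (h | h | h)
        · rw [h]; exact hk
        · exact h.1
        · exact h.1
    have hnot : k ∉ I.filter (fun k' => k < k') ∪ I.filter (fun k' => k' < k) := by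
      rw [mem_union, mem_filter, mem_filter]
      rintro (h | h)
      · exact lt_irrefl _ h.2
      · exact lt_irrefl _ h.2
    have hdis : Disjoint (I.filter (fun k' => k < k')) (I.filter (fun k' => k' < k)) := by
      rw [Finset.disjoint_left]
      intro x hx hx'
      rw [mem_filter] at hx hx'
      omega
    have hsum := hr K
    have e1 : ∑ k' ∈ I.filter (fun k' => k < k'), ∑ a ∈ J, (if P k a then (1 : ℝ) else 0) *
        (if P k' a then 1 else 0) ≤ C * H / Real.log H ^ 2 * (rat m * (C₁ * K)) := by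
      calc _ ≤ ∑ k' ∈ I.filter (fun k' => k < k'), C * H / Real.log H ^ 2 * (rat m * rat (k' - k)) := by
            refine Finset.sum_le_sum fun k' hk' => h3 k k' (mem_filter.1 hk').2
        _ = C * H / Real.log H ^ 2 * (rat m * ∑ k' ∈ I.filter (fun k' => k < k'), rat (k' - k)) := by
            rw [← Finset.mul_sum, ← Finset.mul_sum]
        _ ≤ _ := by
            gcongr
            exact (sum_rat_gt K k hk).trans hsum
    have e2 : ∑ k' ∈ I.filter (fun k' => k' < k), ∑ a ∈ J, (if P k a then (1 : ℝ) else 0) *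
        (if P k' a then 1 else 0) ≤ C * H / Real.log H ^ 2 * (rat m * (C₁ * K)) := by
      calc _ ≤ ∑ k' ∈ I.filter (fun k' => k' < k), C * H / Real.log H ^ 2 * (rat m * rat (k - k')) := by
            refine Finset.sum_le_sum fun k' hk' => ?_
            have := h3 k' k (mem_filter.1 hk').2
            refine le_trans (le_of_eq ?_) this
            exact Finset.sum_congr rfl fun a _ => mul_comm _ _
        _ = C * H / Real.log H ^ 2 * (rat m * ∑ k' ∈ I.filter (fun k' => k' < k), rat (k - k')) := by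
            rw [← Finset.mul_sum, ← Finset.mul_sum]
        _ ≤ _ := by
            gcongr
            exact (sum_rat_lt K k hk).trans hsum
    have e3 : ∑ a ∈ J, (if P k a then (1 : ℝ) else 0) * (if P k a then 1 else 0) =
        ∑ a ∈ J, (if P k a then (1 : ℝ) else 0) := by
      refine Finset.sum_congr rfl fun a _ => ?_
      by_cases q : P k a <;> simp [q]
    rw [e0, Finset.sum_insert hnot, Finset.sum_union hdis, e3]
    calc _ ≤ ∑ a ∈ J, (if P k a then (1 : ℝ) else 0) + (C * H / Real.log H ^ 2 * (rat m * (C₁ * K)) +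
          C * H / Real.log H ^ 2 * (rat m * (C₁ * K))) := by gcongr
      _ = _ := by ring
  have h5 : ∑ a ∈ J, (rr m K a : ℝ) = ∑ k ∈ I, ∑ a ∈ J, (if P k a then (1 : ℝ) else 0) := by
    rw [Finset.sum_comm]
    exact Finset.sum_congr rfl fun a _ => h1 a
  have hcardI : (I.card : ℝ) = K := by
    rw [hI, Nat.card_Ico]
    congr 1
    omega
  calc ∑ a ∈ J, (rr m K a : ℝ) ^ 2 ≤ ∑ k ∈ I, (∑ a ∈ J, (if P k a then (1 : ℝ) else 0) +
        C * H / Real.log H ^ 2 * (rat m * (2 * (C₁ * K)))) := by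
        rw [h2]; exact Finset.sum_le_sum h4
    _ = ∑ a ∈ J, (rr m K a : ℝ) + K * (C * H / Real.log H ^ 2 * (rat m * (2 * (C₁ * K)))) := by
        rw [Finset.sum_add_distrib, Finset.sum_const, nsmul_eq_mul, hcardI, h5]
    _ = _ := by ring

/-- the first moment is a sum over short intervals -/
lemma first_eq (m u H K : ℕ) : ∑ a ∈ Ioc u (u + H), (rr m K a : ℝ) =
    ∑ k ∈ Ico K (2 * K), (pic ((m * k + u : ℕ) : ℝ) (H : ℝ) : ℝ) := by
  classical
  have h1 : ∀ a, (rr m K a : ℝ) = ∑ k ∈ Ico K (2 * K), if (m * k + a).Prime then (1 : ℝ) else 0 := by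
    intro a
    rw [Finset.sum_boole]
    rfl
  rw [Finset.sum_congr rfl fun a _ => h1 a, Finset.sum_comm]
  refine Finset.sum_congr rfl fun k _ => ?_
  rw [Finset.sum_boole]
  unfold pic
  have e1 : ⌊((m * k + u : ℕ) : ℝ)⌋₊ = m * k + u := Nat.floor_natCast _
  have e2 : ⌊((m * k + u : ℕ) : ℝ) + (H : ℝ)⌋₊ = m * k + u + H := by
    rw [← Nat.cast_add]; exact Nat.floor_natCast _
  rw [e1, e2]
  congr 1
  refine Finset.card_nbij (fun a => m * k + a) ?_ ?_ ?_
  · intro a ha
    rw [Finset.mem_coe, mem_filter, mem_Ioc] at ha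
    rw [Finset.mem_coe, mem_filter, mem_Ioc]
    dsimp only
    exact ⟨by omega, ha.2⟩
  · intro a _ b _ hab
    simp only at hab
    omega
  · intro p hp
    rw [Finset.mem_coe, mem_filter, mem_Ioc] at hp
    refine ⟨p - m * k, ?_, ?_⟩
    · rw [Finset.mem_coe, mem_filter, mem_Ioc]
      refine ⟨by omega, ?_⟩
      have : m * k + (p - m * k) = p := by omega
      rw [this]; exact hp.2
    · simp only
      omega

/-- Cauchy-Schwarz -/
lemma cs {s : Finset ℕ} {r : ℕ → ℝ} {s0 P : ℝ} (hs0 : 0 < s0) (hP : 0 ≤ P)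
    (h1 : s0 ≤ ∑ a ∈ s, r a) (h2 : ∑ a ∈ s, r a ^ 2 ≤ ∑ a ∈ s, r a + P) :
    s0 ^ 2 / (s0 + P) ≤ ((s.filter (fun a => r a ≠ 0)).card : ℝ) := by
  classical
  set S := ∑ a ∈ s, r a with hS
  set N : ℝ := ((s.filter (fun a => r a ≠ 0)).card : ℝ) with hN
  have e1 : S = ∑ a ∈ s.filter (fun a => r a ≠ 0), r a := by
    rw [hS, Finset.sum_filter_ne_zero]
  have e2 : S ^ 2 ≤ N * ∑ a ∈ s.filter (fun a => r a ≠ 0), r a ^ 2 := by
    rw [e1]
    exact sq_sum_le_card_mul_sum_sq
  have e3 : ∑ a ∈ s.filter (fun a => r a ≠ 0), r a ^ 2 ≤ ∑ a ∈ s, r a ^ 2 :=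
    Finset.sum_le_sum_of_subset_of_nonneg (filter_subset _ _) fun _ _ _ => sq_nonneg _
  have hN0 : 0 ≤ N := Nat.cast_nonneg _
  have e4 : S ^ 2 ≤ N * (S + P) := by
    refine e2.trans ?_
    gcongr
    exact e3.trans h2
  have hSpos : 0 < S := lt_of_lt_of_le hs0 h1
  rw [div_le_iff₀ (by positivity)]
  have e5 : s0 ^ 2 * (S + P) ≤ S ^ 2 * (s0 + P) := by
    have : 0 ≤ S * s0 * (S - s0) := by
      apply mul_nonneg (by positivity); linarith
    have h3 : 0 ≤ P * (S ^ 2 - s0 ^ 2) := by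
      apply mul_nonneg hP
      nlinarith
    nlinarith
  have e6 : s0 ^ 2 * (S + P) ≤ N * (s0 + P) * (S + P) := by
    calc s0 ^ 2 * (S + P) ≤ S ^ 2 * (s0 + P) := e5
      _ ≤ N * (S + P) * (s0 + P) := by gcongr
      _ = _ := by ring
  exact le_of_mul_le_mul_right e6 (by positivity)

end T9h54.CI
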