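import Pool.Agent.Q278.KT.Fin

/-!
# Primes in all intervals of length `x ^ 0.584`: the optimisation of exponents `OPTX 0.416 0`
-/

set_option autoImplicit false

namespace T9h54.CI

open Finset Pool.Agent.Q240.KS Pool.Agent.Q278.KT

/-- the real-number part of the argument: `a` is the relative length of the factor with the smallest quotient -/
theorem core (a c R : ℝ) (hc : 0 < c) (hR : 0.9999 * c ≤ R) (hR2 : R ≤ 0.416)
    (ha2 : a ≤ 0.416)
    (hsm : 1 / 5 < a → R ≤ 0.416 - 2 * a + 4 * (c * a))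
    (hlv : ∀ m : ℕ, 1 ≤ m → m ≤ 100000 → R ≤ max (2 * (m * a) * c)
      (min (0.416 - (m * a) + 2 * (m * a) * c) (0.416 - 2 * (m * a) + 6 * (m * a) * c)))
    (hmul : a ≤ 0.1674 → ∃ m : ℕ, 1 ≤ m ∧ m ≤ 100000 ∧ 0.3325 ≤ m * a ∧ m * a ≤ 0.4999) : False := by
  have keyA : ∀ m : ℕ, 1 ≤ m → m ≤ 100000 → (m : ℝ) * a ≤ 0.4999 → 0.3325 ≤ (m : ℝ) * a → False := by
    intro m h1 h2 h3 h4
    have h := hlv m h1 h2
    rcases le_max_iff.1 h with h | h
    · nlinarith
    · have h5 := le_min_iff.1 h
      set b : ℝ := (m : ℝ) * a with hb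
      obtain ⟨h6, h7⟩ := h5
      rcases le_total (1 / 4) c with hc4 | hc4
      · nlinarith
      · nlinarith
  rcases le_or_gt a 0.1674 with h1 | h1
  · obtain ⟨m, h2, h3, h4, h5⟩ := hmul h1
    exact keyA m h2 h3 h5 h4
  rcases le_or_gt a 0.24995 with h4 | h4
  · exact keyA 2 (by norm_num) (by norm_num) (by push_cast; linarith) (by push_cast; linarith)
  rcases lt_or_ge a 0.3325 with h5 | h5
  · have hs := hsm (by linarith)
    have hc2 : c ≤ 0.41605 := by linarith
    nlinarith
  · exact keyA 1 (by norm_num) (by norm_num) (by push_cast; linarith) (by push_cast; linarith)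

theorem optx : OPTX 0.416 0 := by
  intro al ka lam R hC hpos
  by_contra hno
  have hno' : ∀ x : ℝ, x < 0 → ¬ Alt 0.416 0 x al ka R := fun x hx h => hno ⟨x, hx, h⟩
  have hone : ∑ i, al i = 1 := by
    have h := hC.one
    have h2 := abs_nonneg (∑ i, al i - 1)
    have h3 : |∑ i, al i - 1| = 0 := le_antisymm h h2
    have h4 := abs_eq_zero.1 h3
    linarith
  obtain ⟨i, hi1, hi2⟩ := t_MINF al ka hC.nn hone
  have hR : ∑ i, ka i ≤ R := by
    by_contra h
    push Not at h
    exact hno' (R - ∑ i, ka i) (by linarith) (Or.inl (by linarith))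
  have hla := hC.la
  have hR0 := hC.R0
  have hcdef : ∑ i, ka i = 0.9999 * ((∑ i, ka i) / 0.9999) := by
    field_simp
  have hki : ka i ≤ (∑ i, ka i) / 0.9999 * al i := by
    rw [div_mul_eq_mul_div, le_div_iff₀ (by norm_num)]
    linarith
  have hcpos : 0 < (∑ i, ka i) / 0.9999 := div_pos hpos (by norm_num)
  have hmobsm : ∀ i : Fin 10, 1 / 5 < al i → al i ≤ lam ∧ R ≤ lam - 2 * al i + 4 * ka i := by
    intro i hi
    rcases lt_or_ge (i : ℕ) 5 with h | h
    · have := hC.mob i h
      linarith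
    · have := hC.smo i h
      exact ⟨by linarith [this.1], by linarith [this.2.2.2]⟩
  have hale : al i ≤ 0.416 := by
    by_contra h
    push Not at h
    have := hmobsm i (by linarith)
    linarith [this.1]
  refine core (al i) ((∑ i, ka i) / 0.9999) R hcpos (by linarith) (by linarith) hale ?_ ?_ ?_
  · intro h
    have := (hmobsm i h).2
    linarith
  · intro m h1 h2
    exact t_LVC 0.416 al ka lam R _ i m hC hi1 hki h1 h2
  · intro h
    exact t_MUL (al i) 0.3325 0.4999 hi1 (by norm_num) (by linarith) (by norm_num)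

/-- no poor intervals of length `≥ e^{(0.584 - η)Y}` -/
theorem mainp_0416 : MAINP 0.416 0 :=
  main2_all _ _ (by norm_num) (by norm_num) (far2_all _ _ (by norm_num) (by norm_num)
    (Pool.Agent.Q208.KT.t_CPT _ _ (by norm_num) (by norm_num) optx))

end T9h54.CI
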