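import Pool.Agent.T9h54.CI.Bad
import Pool.Agent.T9h54.CI.Opt

/-!
# All intervals of classes of length at least `m ^ 0.584`
-/

set_option autoImplicit false

namespace T9h54.CI

open Finset Filter Topology Pool.Agent.Q240.KS
open scoped Classical

/-- blocks -/
lemma blocks (S : ℕ → Prop) (H : ℕ) (x : ℝ) (u : ℕ) : ∀ t : ℕ,
    (∀ i < t, x ≤ (((Ioc (u + i * H) (u + i * H + H)).filter S).card : ℝ)) →
    t * x ≤ (((Ioc u (u + t * H)).filter S).card : ℝ) := by
  intro t
  induction t with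
  | zero => intro _; simp
  | succ t ih =>
    intro h
    have h1 := ih fun i hi => h i (by omega)
    have h2 := h t (by omega)
    have e : u + (t + 1) * H = u + t * H + H := by ring
    have h3 : (Ioc u (u + t * H)).filter S ∪ (Ioc (u + t * H) (u + t * H + H)).filter S ⊆
        (Ioc u (u + (t + 1) * H)).filter S := by
      intro a ha
      rw [mem_union, mem_filter, mem_filter, mem_Ioc, mem_Ioc] at ha
      rw [mem_filter, mem_Ioc, e]
      rcases ha with ⟨⟨h3, h4⟩, h5⟩ | ⟨⟨h3, h4⟩, h5⟩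
      · exact ⟨⟨h3, by omega⟩, h5⟩
      · exact ⟨⟨by omega, h4⟩, h5⟩
    have h4 : Disjoint ((Ioc u (u + t * H)).filter S)
        ((Ioc (u + t * H) (u + t * H + H)).filter S) := by
      rw [Finset.disjoint_left]
      intro a ha ha'
      rw [mem_filter, mem_Ioc] at ha ha'
      omega
    have h5 := Finset.card_le_card h3
    rw [Finset.card_union_of_disjoint h4] at h5
    have h6 : (((Ioc u (u + t * H)).filter S).card : ℝ) +
        (((Ioc (u + t * H) (u + t * H + H)).filter S).card : ℝ) ≤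
        (((Ioc u (u + (t + 1) * H)).filter S).card : ℝ) := by exact_mod_cast h5
    push_cast
    linarith

theorem good_all : ∃ c C : ℝ, 0 < c ∧ 0 < C ∧ ∃ m0 : ℕ, ∀ m : ℕ, m0 ≤ m → ∀ u H : ℕ,
    (m : ℝ) ^ (0.584 : ℝ) ≤ H → u + H ≤ m → Good c C m u H := by
  obtain ⟨c, C, η, hc, hC, hη, m0, h⟩ := bad_count (by norm_num) (by norm_num) le_rfl mainp_0416
  have hev : ∀ᶠ m : ℕ in atTop, 1 ≤ ((m : ℝ)) ^ (9 / 10 - 0.584 : ℝ) / 2 := by
    have h1 := ((tendsto_rpow_atTop (show (0 : ℝ) < 9 / 10 - 0.584 by norm_num)).comp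
      tendsto_natCast_atTop_atTop).eventually_ge_atTop (2 : ℝ)
    filter_upwards [h1] with m hm
    simp only [Function.comp] at hm
    linarith
  obtain ⟨m1, h1⟩ := eventually_atTop.1 hev
  have short : ∀ m : ℕ, max m0 2 ≤ m → ∀ u H : ℕ, (m : ℝ) ^ (0.584 : ℝ) ≤ H →
      (H : ℝ) ≤ (m : ℝ) ^ (9 / 10 : ℝ) → u + H ≤ m → Good c C m u H := by
    intro m hm u H hH1 hH2 hu
    by_contra hbad
    have hm2 : 2 ≤ m := (le_max_right _ _).trans hm
    have hmr : (2 : ℝ) ≤ m := by exact_mod_cast hm2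
    have h2 := h m ((le_max_left _ _).trans hm) H (by
      refine le_trans ?_ hH1
      apply Real.rpow_le_rpow_of_exponent_le (by linarith)
      norm_num
      linarith) hH2 {u} (by
      intro u' hu'
      rw [mem_singleton] at hu'
      rw [hu']
      exact ⟨hu, hbad⟩) (by
      intro u1 hu1 u2 hu2 hlt
      rw [mem_singleton] at hu1 hu2
      omega)
    rw [card_singleton] at h2
    have h3 : (m : ℝ) ^ (0 - η) < 1 :=
      Real.rpow_lt_one_of_one_lt_of_neg (by linarith) (by linarith)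
    push_cast at h2
    linarith
  refine ⟨c / 4, C, by positivity, hC, max (max m0 2) m1, ?_⟩
  intro m hm u H hH1 hu
  have hm0 : max m0 2 ≤ m := (le_max_left _ _).trans hm
  have hm1 : m1 ≤ m := (le_max_right _ _).trans hm
  have hm2 : 2 ≤ m := (le_max_right _ _).trans hm0
  have hmr : (2 : ℝ) ≤ m := by exact_mod_cast hm2
  have hm00 : (0 : ℝ) < m := by linarith
  have hφ : 0 ≤ (m.totient : ℝ) / m := by positivity
  rcases le_or_gt (H : ℝ) ((m : ℝ) ^ (9 / 10 : ℝ)) with hle | hgt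
  · have h2 := short m hm0 u H hH1 hle hu
    unfold Good at h2 ⊢
    refine le_trans ?_ h2
    have : 0 ≤ c * ((m.totient : ℝ) / m) * H := by positivity
    nlinarith
  · set H1 : ℕ := ⌊(m : ℝ) ^ (9 / 10 : ℝ)⌋₊ with hH1'
    have hpow : 2 ≤ (m : ℝ) ^ (9 / 10 - 0.584 : ℝ) := by
      have := h1 m hm1
      linarith
    have hp1 : 1 ≤ (m : ℝ) ^ (0.584 : ℝ) := Real.one_le_rpow (by linarith) (by norm_num)
    have hp2 : (m : ℝ) ^ (9 / 10 : ℝ) = (m : ℝ) ^ (9 / 10 - 0.584 : ℝ) * (m : ℝ) ^ (0.584 : ℝ) := by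
      rw [← Real.rpow_add hm00]; congr 1; ring
    have hH1a : (m : ℝ) ^ (9 / 10 : ℝ) < H1 + 1 := Nat.lt_floor_add_one _
    have hH1b : (H1 : ℝ) ≤ (m : ℝ) ^ (9 / 10 : ℝ) := Nat.floor_le (by positivity)
    have hH1c : (m : ℝ) ^ (0.584 : ℝ) ≤ H1 := by nlinarith
    have hH1d : 1 ≤ H1 := by
      have : (1 : ℝ) ≤ H1 := hp1.trans hH1c
      exact_mod_cast this
    have hHH : H1 ≤ H := by
      have : (H1 : ℝ) ≤ H := hH1b.trans hgt.le
      exact_mod_cast this
    set t : ℕ := H / H1 with ht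
    have ht1 : t * H1 ≤ H := Nat.div_mul_le_self H H1
    have ht2 : H < H1 * (t + 1) := Nat.lt_mul_div_succ H (by omega)
    have ht0 : 1 ≤ t := (Nat.one_le_div_iff (by omega)).2 hHH
    have hS := blocks (SP C m) H1
      (c * ((m.totient : ℝ) / m) * H1) u t (by
        intro i hi
        have hiH : (i + 1) * H1 ≤ t * H1 := Nat.mul_le_mul_right H1 hi
        have hiH' : (i + 1) * H1 = i * H1 + H1 := by ring
        exact short m hm0 (u + i * H1) H1 hH1c hH1b (by omega))
    unfold Good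
    have hsub : (Ioc u (u + t * H1)).filter (SP C m) ⊆
        (Ioc u (u + H)).filter (SP C m) := by
      intro a ha
      rw [mem_filter, mem_Ioc] at ha ⊢
      exact ⟨⟨ha.1.1, by omega⟩, ha.2⟩
    have hcard : (((Ioc u (u + t * H1)).filter (SP C m)).card : ℝ) ≤
        (((Ioc u (u + H)).filter (SP C m)).card : ℝ) := by
      exact_mod_cast Finset.card_le_card hsub
    refine le_trans ?_ (hS.trans hcard)
    have ht3 : H ≤ 2 * (t * H1) := by nlinarith
    have ht4 : (H : ℝ) ≤ 2 * (t * H1) := by exact_mod_cast ht3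
    have h5 : 0 ≤ c * ((m.totient : ℝ) / m) := by positivity
    nlinarith

end T9h54.CI
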